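import Pool.Agent.Helper24.UN.Full
import Pool.Agent.Helper81.AN.TrS

/-!
MR (MP_5ecade_al, MinimalReduction): a component which is not good is unsettled, and the component of
a minimal noncentral normal subgroup.
-/

set_option autoImplicit false

open scoped Pointwise IsMulCommutative

namespace Pool.Agent.Helper42.MR

open Pool.Agent.Helper42.INC Pool.Agent.Helper7.MK Pool.Agent.Helper24.S7 Pool.Agent.Helper57.AN
open Pool.Agent.Helper24.UN

/-- perfect groups, simple modulo the center of order prime to `p`, with settled factor are good -/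
theorem good_of_settled {p : ℕ} [Fact p.Prime] {T : Type} [Group T] [Finite T]
    (hperf : ⁅(⊤ : Subgroup T), (⊤ : Subgroup T)⁆ = ⊤)
    (h3 : ¬ p ∣ Nat.card (Subgroup.center T)) (h4 : p ∣ Nat.card T)
    (hF : (∀ P : Sylow p (T ⧸ Subgroup.center T), IsCyclic P) ∨
      (5 ≤ p ∧ ((∃ m : ℕ, Nonempty ((T ⧸ Subgroup.center T) ≃* alternatingGroup (Fin m))) ∨
        (∃ (k : Type) (_ : Field k) (_ : Finite k), Nonempty ((T ⧸ Subgroup.center T) ≃*
          Matrix.ProjectiveSpecialLinearGroup (Fin 2) k))))) : Good p T := by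
  by_cases hp2 : p ^ 2 ∣ Nat.card T
  · have hdvd : p ^ 2 ∣ Nat.card (T ⧸ Subgroup.center T) := by
      have h5 := Subgroup.card_eq_card_quotient_mul_card_subgroup (Subgroup.center T)
      rw [h5] at hp2
      have h6 : Nat.Coprime (p ^ 2) (Nat.card (Subgroup.center T)) :=
        Nat.Coprime.pow_left 2 (((Fact.out : p.Prime).coprime_iff_not_dvd).2 h3)
      exact h6.dvd_of_dvd_mul_right hp2
    have hcyc : (∀ P : Sylow p (T ⧸ Subgroup.center T), IsCyclic P) → Good p T := fun h =>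
      Pool.Agent.Helper42.CY.pgood_of_cyclic (T ⧸ Subgroup.center T) h hdvd T hperf
        ⟨MulEquiv.refl _⟩ h3
    have key : 5 ≤ p → ((∀ P : Sylow p (T ⧸ Subgroup.center T), IsCyclic P) ∨
        AP p (T ⧸ Subgroup.center T)) → Good p T := by
      intro h5 h
      rcases h with h | ⟨m, hm, ⟨e⟩⟩ | ⟨k, _, _, _, h4, ⟨e⟩⟩
      · exact hcyc h
      · exact pgood_congr e (Pool.Agent.Helper81.AN.pgood_all p h5 m hm) T hperf
          ⟨MulEquiv.refl _⟩ h3
      · exact pgood_congr e (Pool.Agent.Helper57.PL.pgood_of (by omega)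
          (Pool.Agent.Helper55.PL.slGood p (by omega) k)) T hperf ⟨MulEquiv.refl _⟩ h3
    rcases hF with h | ⟨h5, ⟨m, ⟨e⟩⟩ | ⟨k, _, _, ⟨e⟩⟩⟩
    · exact hcyc h
    · exact key h5 (alt_fac e)
    · exact key h5 (psl_fac (by omega) e)
  · exact Pool.Agent.Helper42.IR.F.hII T hperf h4 hp2 h3

/-- the component of a minimal noncentral normal subgroup -/
theorem exists_comp {p : ℕ} [Fact p.Prime] {G : Type} [Group G] [Finite G] (K : Subgroup G)
    [K.Normal] (hperf : ⁅K, K⁆ = K) (hne : K ≠ ⊥)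
    (hmin : ∀ N : Subgroup G, N.Normal → N ≤ K → N ≠ K → N ≤ Subgroup.center G)
    (hz : ¬ p ∣ Nat.card (Subgroup.center G)) (hpK : p ∣ Nat.card K) :
    ∃ S : Subgroup G, Comp K S ∧ IsSimpleGroup (S ⧸ Subgroup.center S) ∧
      ¬ p ∣ Nat.card (Subgroup.center S) ∧ p ∣ Nat.card S := by
  obtain ⟨S, h1, h2, h3, h4⟩ := exists_min K hperf hne
  have hgen := gen_of_min K hmin S h1 h3
  have hp := perf_of_min K hperf hne S h1 h2 hgen h4
  have hc : Comp K S := ⟨h1, h2, hp, hgen, comm_of_min K S h1 h2 hp h4⟩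
  have hS : S ≠ ⊥ := by
    rintro rfl
    exact h3 bot_le
  exact ⟨S, hc, simple_of_min K S hc hS h4, not_dvd_center K S hc hperf hne hmin hz,
    dvd_card K S hc hpK⟩

end Pool.Agent.Helper42.MR
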