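import Mathlib

/-!
# A perfect minimal noncentral normal subgroup lies in every noncentral normal subgroup
-/

namespace Pool.Agent.Helper42.MR

/-- A perfect normal subgroup `K` whose centralizer is the center, and all of whose proper subgroups
which are normal in `G` are central, is contained in every noncentral normal subgroup. -/
theorem least_of_min {G : Type} [Group G] (K : Subgroup G) [K.Normal] (hperf : ⁅K, K⁆ = K)
    (hmin : ∀ N : Subgroup G, N.Normal → N ≤ K → N ≠ K → N ≤ Subgroup.center G)
    (hC : Subgroup.centralizer (K : Set G) = Subgroup.center G)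
    (N : Subgroup G) (hN : N.Normal) (hNc : ¬ N ≤ Subgroup.center G) : K ≤ N := by
  by_contra hle
  have hI : (N ⊓ K : Subgroup G).Normal := inferInstance
  have hIc : N ⊓ K ≤ Subgroup.center G := by
    refine hmin _ hI inf_le_right ?_
    intro h
    exact hle (h ▸ inf_le_left)
  have hNK : ⁅N, K⁆ ≤ Subgroup.center G := by
    have h1 : ⁅N, K⁆ ≤ N ⊓ K :=
      le_inf (Subgroup.commutator_le_left N K) (Subgroup.commutator_le_right N K)
    exact h1.trans hIc
  have hz : ∀ H : Subgroup G, H ≤ Subgroup.center G → ∀ L : Subgroup G, ⁅H, L⁆ = ⊥ := by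
    intro H hH L
    rw [Subgroup.commutator_eq_bot_iff_le_centralizer]
    exact hH.trans (Subgroup.center_le_centralizer _)
  have h1 : ⁅⁅K, N⁆, K⁆ = ⊥ := hz _ (by rwa [Subgroup.commutator_comm]) K
  have h2 : ⁅⁅N, K⁆, K⁆ = ⊥ := hz _ hNK K
  have h3 : ⁅⁅K, K⁆, N⁆ = ⊥ := Subgroup.commutator_commutator_eq_bot_of_rotate h1 h2
  rw [hperf, Subgroup.commutator_comm, Subgroup.commutator_eq_bot_iff_le_centralizer, hC] at h3
  exact hNc h3

end Pool.Agent.Helper42.MR
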