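import Pool.Agent.Helper24.S7.Final
import Pool.Agent.Helper42.IR.F.HII
import Pool.Agent.Helper42.CY.FMain
import Pool.Agent.Helper24.UN.Full

/-!
MR (MP_5ecade_al, MinimalReduction): `mcKay_small`. If a normal subgroup `M` has a series whose factors are abelian or
have cyclic Sylow `p`-subgroups and `M N_G(P) = G`, then Q1 holds for `p` and `G`. Every prime `p`.
-/

set_option autoImplicit false

open scoped Pointwise IsMulCommutative

namespace Pool.Agent.Helper42.MR

open Pool.Agent.Helper24.S7 (InCC Involved)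

section cc

private lemma lift_range {H Y S : Type} [Group H] [Group Y] [Group S] (ψ : H →* Y) (φ : H →* S)
    (hφ : Function.Surjective φ) (hker : ψ.rangeRestrict.ker ≤ φ.ker) :
    ∃ g : ψ.range →* S, Function.Surjective g := by
  let g : ψ.range →* S := ψ.rangeRestrict.liftOfSurjective ψ.rangeRestrict_surjective ⟨φ, hker⟩
  refine ⟨g, fun s => ?_⟩
  obtain ⟨x, rfl⟩ := hφ s
  exact ⟨ψ.rangeRestrict x,
    MonoidHom.liftOfRightInverse_comp_apply _ _ _ ⟨φ, hker⟩ x⟩

/-- a simple group involved in `G` is involved in the normal subgroup `N` or in the quotient -/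
private lemma involved_ext {G S : Type} [Group G] [Group S] (hS : IsSimpleGroup S)
    (N : Subgroup G) [N.Normal] (hinv : Involved S G) : Involved S N ∨ Involved S (G ⧸ N) := by
  obtain ⟨H, L, hL, ⟨e⟩⟩ := hinv
  haveI := hL
  let φ : H →* S := e.toMonoidHom.comp (QuotientGroup.mk' L)
  have hφ : Function.Surjective φ := e.surjective.comp (QuotientGroup.mk'_surjective L)
  have hnorm : ((N.subgroupOf H).map φ).Normal := Subgroup.Normal.map inferInstance φ hφ
  rcases hS.eq_bot_or_eq_top_of_normal _ hnorm with hb | ht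
  · right
    let ψ : H →* G ⧸ N := (QuotientGroup.mk' N).comp H.subtype
    have hker : ψ.rangeRestrict.ker ≤ φ.ker := by
      intro x hx
      rw [MonoidHom.mem_ker] at hx ⊢
      have h1 : (QuotientGroup.mk' N) (x : G) = 1 := congrArg Subtype.val hx
      have h2 : (x : G) ∈ N := (QuotientGroup.eq_one_iff (x : G)).1 h1
      have h3 : φ x ∈ (N.subgroupOf H).map φ :=
        Subgroup.mem_map_of_mem φ (Subgroup.mem_subgroupOf.2 h2)
      rwa [hb, Subgroup.mem_bot] at h3
    obtain ⟨g, hg⟩ := lift_range ψ φ hφ hker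
    exact ⟨ψ.range, g.ker, inferInstance, ⟨QuotientGroup.quotientKerEquivOfSurjective g hg⟩⟩
  · left
    let θ : H.subgroupOf N →* H :=
      (N.subtype.comp (H.subgroupOf N).subtype).codRestrict H (fun x => x.2)
    have hθ : Function.Surjective (φ.comp θ) := by
      intro s
      have hs : s ∈ (N.subgroupOf H).map φ := by rw [ht]; exact Subgroup.mem_top s
      obtain ⟨x, hx, rfl⟩ := hs
      have hxN : (x : G) ∈ N := Subgroup.mem_subgroupOf.1 hx
      exact ⟨⟨⟨x, hxN⟩, Subgroup.mem_subgroupOf.2 x.2⟩, rfl⟩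
    exact ⟨H.subgroupOf N, (φ.comp θ).ker, inferInstance,
      ⟨QuotientGroup.quotientKerEquivOfSurjective (φ.comp θ) hθ⟩⟩

private lemma inCC_ext {p : ℕ} {G : Type} [Group G] (N : Subgroup G) [N.Normal]
    (h1 : InCC p N) (h2 : InCC p (G ⧸ N)) : InCC p G := by
  intro S _ hS hn hinv hp
  rcases involved_ext hS N hinv with h | h
  · exact h1 S hS hn h hp
  · exact h2 S hS hn h hp

private lemma inCC_congr {p : ℕ} {G G' : Type} [Group G] [Group G'] [Finite G] [Finite G']
    (e : G ≃* G') (h : InCC p G) : InCC p G' :=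
  (Pool.Agent.Helper24.S7.inCC_class p).down G G' e.toMonoidHom e.surjective h

private lemma inCC_comm {p : ℕ} {F : Type} [Group F] (h : ∀ a b : F, a * b = b * a) :
    InCC p F := by
  intro S _ hS hn hinv hp
  obtain ⟨H, L, hL, ⟨e⟩⟩ := hinv
  exfalso
  apply hn
  intro a b
  obtain ⟨x, rfl⟩ := e.surjective a
  obtain ⟨y, rfl⟩ := e.surjective b
  obtain ⟨x, rfl⟩ := QuotientGroup.mk'_surjective L x
  obtain ⟨y, rfl⟩ := QuotientGroup.mk'_surjective L y
  rw [← map_mul, ← map_mul, ← map_mul, ← map_mul]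
  have hxy : x * y = y * x := Subtype.ext (h x y)
  rw [hxy]

private lemma inCC_cyc {p : ℕ} [Fact p.Prime] {F : Type} [Group F] [Finite F]
    (h : ∀ P : Sylow p F, IsCyclic P) : InCC p F := by
  intro S _ hS hn hinv hp K _ _ hperf he hz
  exact Pool.Agent.Helper42.CY.pgood_of_cyclic S (Pool.Agent.Helper42.CY.cyclic_section h hinv) hp K
    hperf he hz

private lemma inCC_pgroup {p : ℕ} [Fact p.Prime] {F : Type} [Group F] [Finite F]
    (h : IsPGroup p F) : InCC p F := by
  intro S _ hS hn hinv hp
  obtain ⟨H, L, hL, ⟨e⟩⟩ := hinv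
  haveI := hL
  exfalso
  apply hn
  haveI : Finite S := Finite.of_equiv _ e.toEquiv
  have h1 : IsPGroup p S := ((h.to_subgroup H).to_quotient L).of_equiv e
  haveI : Nontrivial S := hS.toNontrivial
  haveI h2 : Nontrivial (Subgroup.center S) := h1.center_nontrivial
  rcases hS.eq_bot_or_eq_top_of_normal (Subgroup.center S) inferInstance with hb | ht
  · exact absurd hb ((Subgroup.nontrivial_iff_ne_bot _).1 h2)
  · intro a b
    have ha : b ∈ Subgroup.center S := by rw [ht]; exact Subgroup.mem_top b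
    exact Subgroup.mem_center_iff.1 ha a

private lemma inCC_ser {p : ℕ} [Fact p.Prime] {G : Type} [Group G] [Finite G]
    (h : Pool.Agent.Helper24.UN.HSer (fun F [Group F] => (∀ a b : F, a * b = b * a) ∨
      (∀ P : Sylow p F, IsCyclic P)) G) : InCC p G := by
  obtain ⟨n, H, h0, hn, hs⟩ := h
  have key : ∀ i ≤ n, InCC p (H i) := by
    intro i
    induction i with
    | zero =>
      intro _
      apply inCC_comm
      have : Subsingleton (H 0) := by
        rw [h0]
        infer_instance
      intro a b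
      exact Subsingleton.elim _ _
    | succ i ih =>
      intro hi
      obtain ⟨h1, h2, h3⟩ := hs i hi
      refine inCC_ext ((H i).subgroupOf (H (i + 1)))
        (inCC_congr (Subgroup.subgroupOfEquivOfLe h1).symm (ih (Nat.le_of_succ_le hi))) ?_
      rcases h3 with h3 | h3
      · exact inCC_comm h3
      · exact inCC_cyc h3
  have h2 := key n le_rfl
  rw [hn] at h2
  exact inCC_congr (Subgroup.topEquiv (G := G)) h2

end cc

theorem map_normal {p : ℕ} [Fact p.Prime] {G : Type} [Group G] [Finite G] (M : Subgroup G)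
    [M.Normal] (P : Sylow p G) (hP : M ⊔ Subgroup.normalizer (P : Set G) = ⊤) :
    ((P : Subgroup G).map (QuotientGroup.mk' M)).Normal := by
  rw [← Subgroup.normalizer_eq_top_iff, eq_top_iff]
  have h1 : (⊤ : Subgroup (G ⧸ M)) =
      (M ⊔ Subgroup.normalizer (P : Set G)).map (QuotientGroup.mk' M) := by
    rw [hP, Subgroup.map_top_of_surjective _ (QuotientGroup.mk'_surjective M)]
  rw [h1, Subgroup.map_sup]
  refine sup_le ?_ (Subgroup.le_normalizer_map _)
  rw [QuotientGroup.map_mk'_self]
  exact bot_le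

private lemma inCC_sylow {p : ℕ} [Fact p.Prime] {Q : Type} [Group Q] [Finite Q] (P : Sylow p Q)
    (hP : (P : Subgroup Q).Normal) : InCC p Q := by
  haveI := hP
  refine inCC_ext (P : Subgroup Q) (inCC_pgroup P.isPGroup') (inCC_cyc fun R => ?_)
  have h1 : ¬ p ∣ Nat.card (Q ⧸ (P : Subgroup Q)) := by
    rw [← Subgroup.index_eq_card]
    exact P.not_dvd_index
  have h2 : (R : Subgroup (Q ⧸ (P : Subgroup Q))) = ⊥ := by
    rw [← Subgroup.card_eq_one]
    obtain ⟨n, hn⟩ := IsPGroup.iff_card.1 R.isPGroup'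
    rcases n with _ | n
    · rw [hn, pow_zero]
    · exfalso
      apply h1
      refine dvd_trans ?_ (Subgroup.card_subgroup_dvd_card (R : Subgroup (Q ⧸ (P : Subgroup Q))))
      rw [hn]
      exact dvd_pow_self p (Nat.succ_ne_zero n)
  have h3 : Subsingleton (R : Subgroup (Q ⧸ (P : Subgroup Q))) := by
    rw [h2]
    infer_instance
  exact isCyclic_of_subsingleton

theorem mcKay_small {p : ℕ} [Fact p.Prime] {G : Type} [Group G] [Finite G] (M : Subgroup G)
    [M.Normal]
    (h : Pool.Agent.Helper24.UN.HSer (fun F [Group F] => (∀ a b : F, a * b = b * a) ∨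
      (∀ P : Sylow p F, IsCyclic P)) M)
    (P : Sylow p G) (hP : M ⊔ Subgroup.normalizer (P : Set G) = ⊤) :
    Pool.Agent.Helper42.INC.McKayCongr p G := by
  have h1 : InCC p (G ⧸ M) :=
    inCC_sylow (P.mapSurjective (QuotientGroup.mk'_surjective M)) (map_normal M P hP)
  exact Pool.Agent.Helper24.S7.final_of (fun K _ _ => Pool.Agent.Helper42.IR.F.hII K) G
    (inCC_ext M (inCC_ser h) h1)

end Pool.Agent.Helper42.MR
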